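import Pool.Agent.Helper60.SlowOrbit

set_option autoImplicit false

open Filter Topology NNReal
open scoped ENNReal

namespace Pool.Agent.Helper60.SlowOrbit

/-- The Hilbert space `ℓ²(ℕ, ℂ)`. -/
abbrev H : Type := lp (fun _ : ℕ => ℂ) 2

/-- The diagonal semigroup on `ℓ²` with eigenvalues `-1/(k+1) + 2π i R_k`, as a linear map. -/
noncomputable def Tlin (t : ℝ≥0) : H →ₗ[ℂ] H where
  toFun x := ⟨fun k => mult (t : ℝ) k * x k, by
    refine (lp.memℓp x).mono' fun k => ?_
    rw [norm_mul]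
    exact mul_le_of_le_one_left (norm_nonneg _) (norm_mult_le_one t.2 k)⟩
  map_add' x y := by
    ext k
    simp only [lp.coeFn_add, Pi.add_apply]
    exact mul_add _ _ _
  map_smul' a x := by
    ext k
    simp only [lp.coeFn_smul, Pi.smul_apply, smul_eq_mul, RingHom.id_apply]
    ring

lemma Tlin_apply (t : ℝ≥0) (x : H) (k : ℕ) : (Tlin t x) k = mult (t : ℝ) k * x k := rfl

lemma norm_Tlin_le (t : ℝ≥0) (x : H) : ‖Tlin t x‖ ≤ 1 * ‖x‖ := by
  rw [one_mul]
  refine lp.norm_mono (by norm_num) fun k => ?_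
  rw [Tlin_apply, norm_mul]
  exact mul_le_of_le_one_left (norm_nonneg _) (norm_mult_le_one t.2 k)

/-- The diagonal semigroup on `ℓ²` with eigenvalues `-1/(k+1) + 2π i R_k`. -/
noncomputable def T (t : ℝ≥0) : H →L[ℂ] H := (Tlin t).mkContinuous 1 (norm_Tlin_le t)

lemma T_apply (t : ℝ≥0) (x : H) (k : ℕ) : (T t x) k = mult (t : ℝ) k * x k := rfl

lemma norm_T_le (t : ℝ≥0) (x : H) : ‖T t x‖ ≤ ‖x‖ := by
  have := norm_Tlin_le t x
  rwa [one_mul] at this

lemma mult_zero (k : ℕ) : mult 0 k = 1 := by simp [mult]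

lemma mult_add (s t : ℝ) (k : ℕ) : mult (s + t) k = mult s k * mult t k := by
  unfold mult
  have h1 : Real.exp (-((s + t) / ((k : ℝ) + 1))) =
      Real.exp (-(s / ((k : ℝ) + 1))) * Real.exp (-(t / ((k : ℝ) + 1))) := by
    rw [← Real.exp_add]; congr 1; ring
  have h2 : Complex.exp ((2 * Real.pi * R k * (s + t) : ℝ) * Complex.I) =
      Complex.exp ((2 * Real.pi * R k * s : ℝ) * Complex.I) *
        Complex.exp ((2 * Real.pi * R k * t : ℝ) * Complex.I) := by
    rw [← Complex.exp_add]; congr 1; push_cast; ring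
  rw [h1, h2]
  push_cast
  ring

lemma continuous_mult (k : ℕ) : Continuous fun t : ℝ≥0 => mult (t : ℝ) k := by
  unfold mult
  fun_prop

lemma T_zero : T 0 = 1 := by
  ext x k
  rw [T_apply]
  simp [mult_zero]

lemma T_add (s t : ℝ≥0) : T (s + t) = T s * T t := by
  ext x k
  rw [T_apply, mul_apply_eq_comp, T_apply, T_apply, NNReal.coe_add, mult_add]
  ring

lemma T_single (t : ℝ≥0) (k : ℕ) (a : ℂ) :
    T t (lp.single 2 k a) = lp.single 2 k (mult (t : ℝ) k * a) := by
  ext j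
  rw [T_apply]
  by_cases h : j = k
  · subst h
    rw [lp.single_apply_self, lp.single_apply_self]
  · rw [lp.single_apply_ne _ _ _ h, lp.single_apply_ne _ _ _ h, mul_zero]

lemma T_continuous (x : H) : Continuous fun t : ℝ≥0 => T t x := by
  have hx := lp.hasSum_single (E := fun _ : ℕ => ℂ) (p := 2) (by norm_num) x
  refine continuous_of_uniform_approx_of_continuous fun u hu => ?_
  obtain ⟨ε, hε, hεu⟩ := Metric.mem_uniformity_dist.1 hu
  obtain ⟨s, hs⟩ := (Metric.tendsto_nhds.1 hx ε hε).exists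
  refine ⟨fun t => T t (∑ i ∈ s, lp.single 2 i (x i)), ?_, fun t => hεu ?_⟩
  · simp only [map_sum, T_single]
    refine continuous_finsetSum _ fun i _ => ?_
    have h1 := lp.isometry_single (E := fun _ : ℕ => ℂ) (p := 2) i
    exact h1.continuous.comp ((continuous_mult i).mul continuous_const)
  · rw [dist_eq_norm, ← map_sub]
    refine (norm_T_le t _).trans_lt ?_
    rw [← dist_eq_norm, dist_comm]
    exact hs

/-- The weak orbits are exponential sums with absolutely summable coefficients. -/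
lemma weak_orbit (x : H) (y : H →L[ℂ] ℂ) : ∃ c : ℕ → ℂ, (Summable fun k => ‖c k‖) ∧
    ∀ t : ℝ≥0, y (T t x) = ∑' k, c k * mult (t : ℝ) k := by
  obtain ⟨w, hw⟩ : ∃ w : H, ∀ v : H, y v = inner ℂ w v :=
    ⟨(InnerProductSpace.toDual ℂ H).symm y, fun v => by
      rw [InnerProductSpace.toDual_symm_apply]⟩
  have hsum : Summable fun k => (inner ℂ (w k) (x k) : ℂ) :=
    lp.summable_inner (𝕜 := ℂ) (G := fun _ : ℕ => ℂ) w x
  refine ⟨fun k => inner ℂ (w k) (x k), hsum.norm, fun t => ?_⟩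
  rw [hw, lp.inner_eq_tsum]
  refine tsum_congr fun k => ?_
  rw [T_apply, ← smul_eq_mul, inner_smul_right]
  ring

lemma tendsto_mult (k : ℕ) : Tendsto (fun t : ℝ≥0 => mult (t : ℝ) k) atTop (𝓝 0) := by
  rw [tendsto_zero_iff_norm_tendsto_zero]
  simp only [norm_mult]
  refine Real.tendsto_exp_atBot.comp ?_
  have h : Tendsto (fun t : ℝ≥0 => (t : ℝ) * (1 / ((k : ℝ) + 1))) atTop atTop :=
    (NNReal.tendsto_coe_atTop.2 tendsto_id).atTop_mul_const (by positivity)
  refine (tendsto_neg_atTop_atBot.comp h).congr fun t => ?_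
  simp only [Function.comp]
  ring

/-- Weak stability. -/
lemma weakly_stable (x : H) (y : H →L[ℂ] ℂ) :
    Tendsto (fun t : ℝ≥0 => y (T t x)) atTop (𝓝 0) := by
  obtain ⟨c, hc, h⟩ := weak_orbit x y
  simp only [h]
  have h0 : (0 : ℂ) = ∑' k : ℕ, c k * 0 := by simp
  rw [h0]
  refine tendsto_tsum_of_dominated_convergence hc (fun k => ?_) ?_
  · exact (tendsto_mult k).const_mul _
  · refine Eventually.of_forall fun t k => ?_
    rw [norm_mul]
    exact mul_le_of_le_one_right (norm_nonneg _) (norm_mult_le_one t.2 k)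

/-- The semigroup is not exponentially stable. -/
lemma not_exp_stable :
    ¬ ∃ M ω : ℝ, 0 < ω ∧ ∀ t : ℝ≥0, ‖T t‖ ≤ M * Real.exp (-ω * (t : ℝ)) := by
  rintro ⟨M, ω, hω, h⟩
  obtain ⟨k, hk⟩ := exists_nat_one_div_lt hω
  have h1 : ∀ t : ℝ≥0, Real.exp (-((t : ℝ) / ((k : ℝ) + 1))) ≤ M * Real.exp (-ω * (t : ℝ)) := by
    intro t
    have h2 := (T t).le_opNorm (lp.single 2 k (1 : ℂ))
    rw [T_single, lp.norm_single (by norm_num), lp.norm_single (by norm_num), mul_one, norm_mult,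
      norm_one, mul_one] at h2
    exact h2.trans (h t)
  have h3 : ∀ t : ℝ≥0, Real.exp ((ω - 1 / ((k : ℝ) + 1)) * (t : ℝ)) ≤ M := by
    intro t
    have h4 := h1 t
    have h5 : Real.exp (-((t : ℝ) / ((k : ℝ) + 1))) =
        Real.exp ((ω - 1 / ((k : ℝ) + 1)) * (t : ℝ)) * Real.exp (-ω * (t : ℝ)) := by
      rw [← Real.exp_add]; congr 1; ring
    rw [h5] at h4
    exact le_of_mul_le_mul_right h4 (Real.exp_pos _)
  have hpos : 0 < ω - 1 / ((k : ℝ) + 1) := by linarith
  have h6 : Tendsto (fun t : ℝ≥0 => Real.exp ((ω - 1 / ((k : ℝ) + 1)) * (t : ℝ))) atTop atTop :=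
    Real.tendsto_exp_atTop.comp (Tendsto.const_mul_atTop hpos
      (NNReal.tendsto_coe_atTop.2 tendsto_id))
  obtain ⟨t, ht⟩ := (h6.eventually (eventually_gt_atTop M)).exists
  exact absurd (h3 t) (not_le.2 ht)

/-- The rate `1/(1+√t)`. -/
noncomputable def rate (t : ℝ≥0) : ℝ := 1 / (1 + Real.sqrt t)

lemma rate_pos (t : ℝ≥0) : 0 < rate t := by
  unfold rate
  have := Real.sqrt_nonneg (t : ℝ)
  positivity

lemma rate_antitone : Antitone rate := by
  intro s t hst
  unfold rate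
  apply one_div_le_one_div_of_le
  · have := Real.sqrt_nonneg (s : ℝ)
    positivity
  · have : Real.sqrt (s : ℝ) ≤ Real.sqrt (t : ℝ) := Real.sqrt_le_sqrt (by exact_mod_cast hst)
    linarith

lemma rate_tendsto : Tendsto rate atTop (𝓝 0) := by
  have h1 : Tendsto (fun t : ℝ≥0 => 1 + Real.sqrt (t : ℝ)) atTop atTop :=
    tendsto_atTop_add_const_left _ _
      (Real.tendsto_sqrt_atTop.comp (NNReal.tendsto_coe_atTop.2 tendsto_id))
  exact h1.inv_tendsto_atTop.congr fun t => by simp [rate]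

/-- Every weak orbit drops below the rate `1/(1+√t)` at some time. -/
theorem exists_time_small (x : H) (y : H →L[ℂ] ℂ) : ∃ t : ℝ≥0, ‖y (T t x)‖ < rate t := by
  obtain ⟨c, hc, h⟩ := weak_orbit x y
  obtain ⟨t, ht0, ht⟩ := exists_small c hc
  refine ⟨t.toNNReal, ?_⟩
  rw [h, rate, Real.coe_toNNReal t ht0]
  exact ht

end Pool.Agent.Helper60.SlowOrbit
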