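import Mathlib

set_option autoImplicit false

open Filter Topology

namespace Pool.Agent.Helper60.SlowOrbit

/-- Lacunary frequencies `R k = 2^{k(k+1)}`. -/
noncomputable def R (k : ℕ) : ℝ := 2 ^ (k * (k + 1))

lemma R_pos (k : ℕ) : 0 < R k := by unfold R; positivity

lemma R_succ (k : ℕ) : R (k + 1) = 4 ^ (k + 1) * R k := by
  unfold R
  rw [show (4 : ℝ) = 2 ^ 2 by norm_num, ← pow_mul, ← pow_add]
  congr 1
  ring

lemma R_ge (k : ℕ) : (4 : ℝ) ^ k ≤ R k := by
  unfold R
  rw [show (4 : ℝ) = 2 ^ 2 by norm_num, ← pow_mul]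
  apply pow_le_pow_right₀ (by norm_num)
  rcases Nat.eq_zero_or_pos k with h | h
  · subst h; simp
  · nlinarith

lemma triangle {p q r : ℝ} (hp : 0 ≤ p) (hq : 0 ≤ q) (hr : 0 ≤ r) (h1 : p ≤ q + r)
    (h2 : q ≤ p + r) (h3 : r ≤ p + q) :
    ∃ u v : ℂ, ‖u‖ = 1 ∧ ‖v‖ = 1 ∧ (p : ℂ) + q * u + r * v = 0 := by
  have hcont : Continuous fun θ : ℝ => ‖(p : ℂ) + q * Complex.exp (θ * Complex.I)‖ := by
    fun_prop
  have hIVT := intermediate_value_Icc' (a := 0) (b := Real.pi) Real.pi_pos.le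
    hcont.continuousOn
  have h0 : ‖(p : ℂ) + q * Complex.exp (((0 : ℝ) : ℂ) * Complex.I)‖ = p + q := by
    have : (p : ℂ) + q * Complex.exp (((0 : ℝ) : ℂ) * Complex.I) = ((p + q : ℝ) : ℂ) := by
      simp
    rw [this, Complex.norm_real, Real.norm_of_nonneg (by positivity)]
  have hpi : ‖(p : ℂ) + q * Complex.exp (((Real.pi : ℝ) : ℂ) * Complex.I)‖ = |p - q| := by
    have : (p : ℂ) + q * Complex.exp (((Real.pi : ℝ) : ℂ) * Complex.I) = ((p - q : ℝ) : ℂ) := by
      rw [Complex.exp_pi_mul_I]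
      push_cast
      ring
    rw [this, Complex.norm_real, Real.norm_eq_abs]
  have hmem : r ∈ Set.Icc (‖(p : ℂ) + q * Complex.exp (((Real.pi : ℝ) : ℂ) * Complex.I)‖)
      (‖(p : ℂ) + q * Complex.exp (((0 : ℝ) : ℂ) * Complex.I)‖) := by
    rw [h0, hpi]
    refine ⟨?_, h3⟩
    rw [abs_le]
    constructor <;> linarith
  obtain ⟨θ, _, hθ⟩ := hIVT hmem
  simp only at hθ
  refine ⟨Complex.exp (θ * Complex.I), if r = 0 then 1 else
    -(((p : ℂ) + q * Complex.exp (θ * Complex.I)) / r), Complex.norm_exp_ofReal_mul_I θ, ?_, ?_⟩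
  · split_ifs with h
    · simp
    · rw [norm_neg, norm_div, hθ, Complex.norm_real, Real.norm_of_nonneg hr, div_self h]
  · split_ifs with h
    · rw [h] at hθ
      rw [norm_eq_zero] at hθ
      rw [hθ, h]
      simp
    · have : (r : ℂ) ≠ 0 := by exact_mod_cast h
      field_simp
      ring

/-- Polygon lemma: if no term exceeds half of the total, the terms can be turned so that they add up
to zero. -/
lemma polygon (m : ℕ → ℝ) (hm : ∀ k, 0 ≤ m k) (hs : Summable m)
    (h : ∀ n, 2 * m n ≤ ∑' k, m k) :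
    ∃ z : ℕ → ℂ, (∀ k, ‖z k‖ = 1) ∧ ∑' k, (m k : ℂ) * z k = 0 := by
  set S := ∑' k, m k with hS
  have hS0 : 0 ≤ S := tsum_nonneg hm
  rcases hS0.eq_or_lt with hz | hpos
  · refine ⟨fun _ => 1, fun _ => by simp, ?_⟩
    have : ∀ k, m k = 0 := fun k => le_antisymm (by linarith [h k]) (hm k)
    simp [this]
  · have hex : ∃ j, S / 2 < ∑ k ∈ Finset.range j, m k := by
      have ht := hs.hasSum.tendsto_sum_nat
      have := ht.eventually (lt_mem_nhds (show S / 2 < S by linarith))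
      exact this.exists
    classical
    set j := Nat.find hex with hj
    have hj1 : S / 2 < ∑ k ∈ Finset.range j, m k := Nat.find_spec hex
    have hj0 : j ≠ 0 := by
      intro h0
      rw [h0] at hj1
      simp at hj1
      linarith
    obtain ⟨i, hi⟩ := Nat.exists_eq_succ_of_ne_zero hj0
    have hi1 : ∑ k ∈ Finset.range i, m k ≤ S / 2 := by
      have := Nat.find_min hex (m := i) (by omega)
      exact not_lt.1 this
    rw [hi] at hj1
    have hsplit : ∑ k ∈ Finset.range (i + 1), m k + ∑' k, m (k + (i + 1)) = S :=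
      hs.sum_add_tsum_nat_add (i + 1)
    have hr0 : 0 ≤ ∑' k, m (k + (i + 1)) := tsum_nonneg fun k => hm _
    have hp0 : 0 ≤ ∑ k ∈ Finset.range i, m k := Finset.sum_nonneg fun k _ => hm k
    rw [Finset.sum_range_succ] at hsplit
    rw [Nat.succ_eq_add_one, Finset.sum_range_succ] at hj1
    obtain ⟨u, v, hu, hv, huv⟩ := triangle (p := ∑ k ∈ Finset.range i, m k) (q := m i)
      (r := ∑' k, m (k + (i + 1))) hp0 (hm i) hr0 (by linarith) (by linarith [h i]) (by linarith)
    refine ⟨fun k => if k < i then 1 else if k = i then u else v, fun k => ?_, ?_⟩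
    · dsimp only
      split_ifs
      · simp
      · exact hu
      · exact hv
    · have hsum : Summable fun k => (m k : ℂ) * (if k < i then 1 else if k = i then u else v) := by
        apply Summable.of_norm_bounded hs
        intro k
        rw [norm_mul, Complex.norm_real, Real.norm_of_nonneg (hm k)]
        have : ‖(if k < i then (1 : ℂ) else if k = i then u else v)‖ = 1 := by
          split_ifs
          · simp
          · exact hu
          · exact hv
        rw [this, mul_one]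
      rw [← hsum.sum_add_tsum_nat_add (i + 1), Finset.sum_range_succ]
      have e1 : ∑ k ∈ Finset.range i, (m k : ℂ) * (if k < i then 1 else if k = i then u else v) =
          ((∑ k ∈ Finset.range i, m k : ℝ) : ℂ) := by
        push_cast
        refine Finset.sum_congr rfl fun k hk => ?_
        rw [if_pos (Finset.mem_range.1 hk), mul_one]
      have e2 : ∑' k, ((m (k + (i + 1)) : ℂ) * (if k + (i + 1) < i then 1 else
          if k + (i + 1) = i then u else v)) = ((∑' k, m (k + (i + 1)) : ℝ) : ℂ) * v := by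
        rw [Complex.ofReal_tsum, ← tsum_mul_right]
        refine tsum_congr fun k => ?_
        rw [if_neg (by omega), if_neg (by omega)]
      rw [e1, e2, if_neg (lt_irrefl i), if_pos rfl]
      exact huv

/-- One alignment step. -/
lemma align_step (ρ : ℝ) (hρ : 0 < ρ) (s : ℝ) (z : ℂ) (hz : ‖z‖ = 1) :
    ∃ s' : ℝ, s ≤ s' ∧ s' ≤ s + 1 / ρ ∧
      Complex.exp ((2 * Real.pi * ρ * s' : ℝ) * Complex.I) = z := by
  set θ := Complex.arg z with hθ
  have hz' : Complex.exp (θ * Complex.I) = z := by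
    have := Complex.norm_mul_exp_arg_mul_I z
    rw [hz] at this
    simpa using this
  refine ⟨s + Int.fract (θ / (2 * Real.pi) - ρ * s) / ρ, ?_, ?_, ?_⟩
  · have : 0 ≤ Int.fract (θ / (2 * Real.pi) - ρ * s) / ρ :=
      div_nonneg (Int.fract_nonneg _) hρ.le
    linarith
  · have : Int.fract (θ / (2 * Real.pi) - ρ * s) / ρ ≤ 1 / ρ :=
      div_le_div_of_nonneg_right (Int.fract_lt_one _).le hρ.le
    linarith
  · have hpi := Real.pi_pos
    have : 2 * Real.pi * ρ * (s + Int.fract (θ / (2 * Real.pi) - ρ * s) / ρ) =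
        θ - ⌊θ / (2 * Real.pi) - ρ * s⌋ * (2 * Real.pi) := by
      rw [Int.fract]
      field_simp
      ring
    rw [this]
    push_cast
    rw [sub_mul, Complex.exp_sub, hz']
    have h1 : ((⌊θ / (2 * Real.pi) - ρ * s⌋ : ℂ) * (2 * (Real.pi : ℂ))) * Complex.I =
        (⌊θ / (2 * Real.pi) - ρ * s⌋ : ℂ) * (2 * Real.pi * Complex.I) := by ring
    rw [h1, Complex.exp_int_mul_two_pi_mul_I, div_one]

lemma exp_I_lipschitz (x y : ℝ) :
    ‖Complex.exp (x * Complex.I) - Complex.exp (y * Complex.I)‖ ≤ |x - y| := by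
  have h1 : Complex.exp (x * Complex.I) - Complex.exp (y * Complex.I) =
      Complex.exp (y * Complex.I) * (Complex.exp (Complex.I * ((x - y : ℝ) : ℂ)) - 1) := by
    rw [mul_sub, ← Complex.exp_add, mul_one]
    congr 2
    push_cast
    ring
  rw [h1, norm_mul, Complex.norm_exp_ofReal_mul_I, one_mul]
  exact Real.norm_exp_I_mul_ofReal_sub_one_le

/-- Simultaneous alignment of all high frequencies in a short time window. -/
lemma align (n₀ : ℕ) (T : ℝ) (z : ℕ → ℂ) (hz : ∀ k, ‖z k‖ = 1) :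
    ∃ t : ℝ, T ≤ t ∧ t ≤ T + 2 / R n₀ ∧ ∀ k, n₀ ≤ k →
      ‖Complex.exp ((2 * Real.pi * R k * t : ℝ) * Complex.I) - z k‖ ≤ 4 * (1 / 4) ^ k := by
  choose f hf1 hf2 hf3 using fun (k : ℕ) (s : ℝ) => align_step (R k) (R_pos k) s (z k) (hz k)
  obtain ⟨s, hs0, hsS⟩ : ∃ s : ℕ → ℝ, s 0 = T ∧ ∀ j : ℕ, s (j + 1) = f (n₀ + j) (s j) :=
    ⟨fun j => Nat.rec T (fun j x => f (n₀ + j) x) j, rfl, fun _ => rfl⟩
  have hmono : Monotone s := monotone_nat_of_le_succ fun j => by
    rw [hsS]; exact hf1 _ _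
  have hanti : Antitone fun j => s j + 2 / R (n₀ + j) := by
    refine antitone_nat_of_succ_le fun j => ?_
    have h1 : s (j + 1) ≤ s j + 1 / R (n₀ + j) := by rw [hsS]; exact hf2 _ _
    have h2 : 2 / R (n₀ + (j + 1)) ≤ 1 / R (n₀ + j) := by
      rw [← add_assoc, R_succ, div_le_div_iff₀ (by have := R_pos (n₀ + j); positivity)
        (R_pos _)]
      have h3 : (4 : ℝ) ≤ 4 ^ (n₀ + j + 1) := by
        calc (4 : ℝ) = 4 ^ 1 := by norm_num
          _ ≤ 4 ^ (n₀ + j + 1) := pow_le_pow_right₀ (by norm_num) (by omega)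
      have := R_pos (n₀ + j)
      nlinarith
    have h4 : (1 : ℝ) / R (n₀ + j) + 1 / R (n₀ + j) = 2 / R (n₀ + j) := by ring
    linarith
  have hmem := hmono.ciSup_mem_iInter_Icc_of_antitone hanti (fun j => by
    have := R_pos (n₀ + j)
    have h2 : 0 < 2 / R (n₀ + j) := by positivity
    simp only
    linarith)
  set t := ⨆ j, s j with ht
  simp only [Set.mem_iInter, Set.mem_Icc] at hmem
  refine ⟨t, ?_, ?_, ?_⟩
  · have := (hmem 0).1
    rwa [hs0] at this
  · have := (hmem 0).2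
    rwa [hs0, add_zero] at this
  · intro k hk
    obtain ⟨j, rfl⟩ := Nat.exists_eq_add_of_le hk
    have h1 := hmem (j + 1)
    have h2 : Complex.exp ((2 * Real.pi * R (n₀ + j) * s (j + 1) : ℝ) * Complex.I) =
        z (n₀ + j) := by
      rw [hsS]; exact hf3 _ _
    rw [← h2]
    refine (exp_I_lipschitz _ _).trans ?_
    rw [← mul_sub, abs_mul, abs_of_nonneg (show 0 ≤ t - s (j + 1) by linarith [h1.1]),
      abs_of_nonneg (show 0 ≤ 2 * Real.pi * R (n₀ + j) by
        have := R_pos (n₀ + j); have := Real.pi_pos; positivity)]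
    have h3 : t - s (j + 1) ≤ 2 / R (n₀ + (j + 1)) := by linarith [h1.2]
    have hR := R_pos (n₀ + j)
    calc 2 * Real.pi * R (n₀ + j) * (t - s (j + 1))
        ≤ 2 * Real.pi * R (n₀ + j) * (2 / R (n₀ + (j + 1))) :=
          mul_le_mul_of_nonneg_left h3 (by have := Real.pi_pos; positivity)
      _ = Real.pi * (1 / 4) ^ (n₀ + j) := by
          rw [← add_assoc, R_succ, pow_succ, one_div, inv_pow]
          field_simp
          norm_num
      _ ≤ 4 * (1 / 4) ^ (n₀ + j) :=
          mul_le_mul_of_nonneg_right Real.pi_le_four (by positivity)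

/-- The multiplier `exp((-1/(k+1) + 2π i R_k) t)`. -/
noncomputable def mult (t : ℝ) (k : ℕ) : ℂ :=
  (Real.exp (-(t / ((k : ℝ) + 1))) : ℂ) * Complex.exp ((2 * Real.pi * R k * t : ℝ) * Complex.I)

lemma norm_mult (t : ℝ) (k : ℕ) : ‖mult t k‖ = Real.exp (-(t / ((k : ℝ) + 1))) := by
  unfold mult
  rw [norm_mul, Complex.norm_exp_ofReal_mul_I, mul_one, Complex.norm_real,
    Real.norm_of_nonneg (Real.exp_nonneg _)]

lemma norm_mult_le_one {t : ℝ} (ht : 0 ≤ t) (k : ℕ) : ‖mult t k‖ ≤ 1 := by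
  rw [norm_mult, Real.exp_le_one_iff]
  have : 0 ≤ t / ((k : ℝ) + 1) := by positivity
  linarith

/-- The dominating function `∑ |c_k| exp(-T/(k+1))`. -/
noncomputable def S (c : ℕ → ℂ) (T : ℝ) : ℝ := ∑' k, ‖c k‖ * Real.exp (-(T / ((k : ℝ) + 1)))

lemma exp_le_one' {T : ℝ} (hT : 0 ≤ T) (k : ℕ) : Real.exp (-(T / ((k : ℝ) + 1))) ≤ 1 := by
  rw [Real.exp_le_one_iff]
  have : 0 ≤ T / ((k : ℝ) + 1) := by positivity
  linarith

lemma summable_S {c : ℕ → ℂ} (hc : Summable fun k => ‖c k‖) {T : ℝ} (hT : 0 ≤ T) :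
    Summable fun k : ℕ => ‖c k‖ * Real.exp (-(T / ((k : ℝ) + 1))) := by
  refine Summable.of_nonneg_of_le (fun k => by positivity) (fun k => ?_) hc
  have := exp_le_one' hT k
  have := norm_nonneg (c k)
  nlinarith

lemma half_pow_le {N : ℕ} : (1 / 4 : ℝ) ^ N ≤ (1 / 2) ^ N :=
  pow_le_pow_left₀ (by norm_num) (by norm_num) N

lemma exp_neg_nat_le (N : ℕ) : Real.exp (-(N : ℝ)) ≤ (1 / 2) ^ N := by
  have h1 : Real.exp (-(N : ℝ)) = (Real.exp (-1)) ^ N := by
    rw [← Real.exp_nat_mul]; congr 1; ring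
  rw [h1]
  apply pow_le_pow_left₀ (Real.exp_nonneg _)
  rw [Real.exp_neg, one_div]
  apply inv_anti₀ (by norm_num)
  have := Real.add_one_le_exp (1 : ℝ)
  linarith

/-- If no term dominates at time `T ≥ N^2`, then the orbit is tiny at some time in `[T, T+2]`. -/
lemma small_of_no_dominating {c : ℕ → ℂ} (hc : Summable fun k => ‖c k‖) (N : ℕ) (hN : 1 ≤ N)
    {T : ℝ} (hT : (N : ℝ) ^ 2 ≤ T)
    (h : ∀ n : ℕ, 2 * (‖c n‖ * Real.exp (-(T / ((n : ℝ) + 1)))) ≤ S c T) :
    ∃ t : ℝ, T ≤ t ∧ t ≤ T + 2 ∧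
      ‖∑' k, c k * mult t k‖ ≤ (∑' k, ‖c k‖) * (8 * (1 / 2) ^ N) := by
  have hT0 : 0 ≤ T := le_trans (by positivity) hT
  obtain ⟨z, hz1, hz2⟩ := polygon (fun k => ‖c k‖ * Real.exp (-(T / ((k : ℝ) + 1))))
    (fun k => by positivity) (summable_S hc hT0) h
  -- unimodular factors of the coefficients
  have hu : ∀ k : ℕ, ∃ u : ℂ, ‖u‖ = 1 ∧ c k = ‖c k‖ * u := by
    intro k
    refine ⟨Complex.exp (Complex.arg (c k) * Complex.I), Complex.norm_exp_ofReal_mul_I _, ?_⟩
    exact (Complex.norm_mul_exp_arg_mul_I (c k)).symm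
  choose u hu1 hu2 using hu
  obtain ⟨t, ht1, ht2, ht3⟩ := align N T (fun k => z k * (u k)⁻¹) (fun k => by
    rw [norm_mul, norm_inv, hz1, hu1]; norm_num)
  have hRN : 2 / R N ≤ 2 * (1 / 4) ^ N := by
    have h1 := R_ge N
    have h2 : (0 : ℝ) < 4 ^ N := by positivity
    have h3 : 2 / R N ≤ 2 / 4 ^ N := div_le_div_of_nonneg_left (by norm_num) h2 h1
    refine h3.trans (le_of_eq ?_)
    rw [one_div, inv_pow]
    ring
  have hN4 : (1 / 4 : ℝ) ^ N ≤ 1 := pow_le_one₀ (by norm_num) (by norm_num)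
  have ht0 : 0 ≤ t := hT0.trans ht1
  refine ⟨t, ht1, by linarith, ?_⟩
  have hterm : ∀ k : ℕ, ‖c k * mult t k - ((‖c k‖ * Real.exp (-(T / ((k : ℝ) + 1))) : ℝ) : ℂ) * z k‖
      ≤ ‖c k‖ * (8 * (1 / 2) ^ N) := by
    intro k
    set w := Complex.exp ((2 * Real.pi * R k * t : ℝ) * Complex.I) with hw
    have hwn : ‖w‖ = 1 := Complex.norm_exp_ofReal_mul_I _
    set A := Real.exp (-(t / ((k : ℝ) + 1))) with hA
    set B := Real.exp (-(T / ((k : ℝ) + 1))) with hB
    have hA0 : 0 ≤ A := Real.exp_nonneg _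
    have hB0 : 0 ≤ B := Real.exp_nonneg _
    have hAB : A ≤ B := by
      rw [hA, hB, Real.exp_le_exp]
      have : T / ((k : ℝ) + 1) ≤ t / ((k : ℝ) + 1) := by gcongr
      linarith
    have hB1 : B ≤ 1 := exp_le_one' hT0 k
    have e1 : c k * mult t k - ((‖c k‖ * B : ℝ) : ℂ) * z k =
        ‖c k‖ * (((A - B : ℝ) : ℂ) * (w * u k) + (B : ℂ) * (w * u k - z k)) := by
      unfold mult
      rw [← hw, ← hA]
      conv_lhs => rw [hu2 k]
      push_cast
      have : ((‖(‖c k‖ : ℂ) * u k‖ : ℝ) : ℂ) = (‖c k‖ : ℂ) := by rw [← hu2 k]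
      rw [this]
      ring
    rw [e1, norm_mul, Complex.norm_real, norm_norm]
    apply mul_le_mul_of_nonneg_left _ (norm_nonneg _)
    have hwu : ‖w * u k‖ = 1 := by rw [norm_mul, hwn, hu1, one_mul]
    by_cases hk : k < N
    · have hBN : B ≤ (1 / 2) ^ N := by
        refine le_trans ?_ (exp_neg_nat_le N)
        rw [hB, Real.exp_le_exp]
        have hk1 : (k : ℝ) + 1 ≤ N := by exact_mod_cast hk
        have : (N : ℝ) ≤ T / ((k : ℝ) + 1) := by
          rw [le_div_iff₀ (by positivity)]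
          have : (0 : ℝ) ≤ N := by positivity
          nlinarith
        linarith
      have hsum : ((A - B : ℝ) : ℂ) * (w * u k) + (B : ℂ) * (w * u k - z k) =
          (A : ℂ) * (w * u k) - (B : ℂ) * z k := by push_cast; ring
      rw [hsum]
      calc ‖(A : ℂ) * (w * u k) - (B : ℂ) * z k‖ ≤ ‖(A : ℂ) * (w * u k)‖ + ‖(B : ℂ) * z k‖ :=
            norm_sub_le _ _
        _ = A + B := by
            rw [norm_mul (A : ℂ) (w * u k), norm_mul (B : ℂ) (z k), hwu, hz1,
              Complex.norm_real, Complex.norm_real, Real.norm_of_nonneg hA0,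
              Real.norm_of_nonneg hB0]
            ring
        _ ≤ 8 * (1 / 2) ^ N := by linarith
    · have hk' : N ≤ k := not_lt.1 hk
      have h1 : ‖w * u k - z k‖ ≤ 4 * (1 / 4) ^ k := by
        have h2 := ht3 k hk'
        have h3 : w * u k - z k = (w - z k * (u k)⁻¹) * u k := by
          have : u k ≠ 0 := by
            intro h0
            have := hu1 k
            rw [h0, norm_zero] at this
            norm_num at this
          field_simp
        rw [h3, norm_mul, hu1, mul_one]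
        exact h2
      have h4 : (1 / 4 : ℝ) ^ k ≤ (1 / 4) ^ N := pow_le_pow_of_le_one (by norm_num) (by norm_num) hk'
      have h5 : B - A ≤ 2 * (1 / 4) ^ N := by
        have h6 : A = B * Real.exp (-((t - T) / ((k : ℝ) + 1))) := by
          rw [hA, hB, ← Real.exp_add]
          congr 1
          ring
        have h7 : 1 - (t - T) / ((k : ℝ) + 1) ≤ Real.exp (-((t - T) / ((k : ℝ) + 1))) := by
          have := Real.add_one_le_exp (-((t - T) / ((k : ℝ) + 1)))
          linarith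
        have h8 : (t - T) / ((k : ℝ) + 1) ≤ t - T := by
          apply div_le_self (by linarith)
          have : (0 : ℝ) ≤ k := by positivity
          linarith
        have h9 : B - A = B * (1 - Real.exp (-((t - T) / ((k : ℝ) + 1)))) := by rw [h6]; ring
        rw [h9]
        calc B * (1 - Real.exp (-((t - T) / ((k : ℝ) + 1)))) ≤ 1 * (t - T) := by
              apply mul_le_mul hB1 (by linarith) _ (by norm_num)
              have : Real.exp (-((t - T) / ((k : ℝ) + 1))) ≤ 1 := by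
                rw [Real.exp_le_one_iff]
                have : 0 ≤ (t - T) / ((k : ℝ) + 1) := by
                  apply div_nonneg <;> [linarith; positivity]
                linarith
              linarith
          _ ≤ 2 * (1 / 4) ^ N := by linarith
      have h10 := half_pow_le (N := N)
      calc ‖((A - B : ℝ) : ℂ) * (w * u k) + (B : ℂ) * (w * u k - z k)‖
          ≤ ‖((A - B : ℝ) : ℂ) * (w * u k)‖ + ‖(B : ℂ) * (w * u k - z k)‖ := norm_add_le _ _
        _ = |A - B| + B * ‖w * u k - z k‖ := by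
            rw [norm_mul ((A - B : ℝ) : ℂ) (w * u k), norm_mul (B : ℂ) (w * u k - z k), hwu,
              mul_one, Complex.norm_real, Complex.norm_real, Real.norm_eq_abs,
              Real.norm_of_nonneg hB0]
        _ ≤ 2 * (1 / 4) ^ N + 1 * (4 * (1 / 4) ^ N) := by
            rw [abs_sub_comm, abs_of_nonneg (by linarith)]
            have : B * ‖w * u k - z k‖ ≤ 1 * (4 * (1 / 4) ^ N) :=
              mul_le_mul hB1 (by linarith) (norm_nonneg _) (by norm_num)
            linarith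
        _ ≤ 8 * (1 / 2) ^ N := by
            have : (0 : ℝ) ≤ (1 / 2) ^ N := by positivity
            linarith
  have hs1 : Summable fun k => c k * mult t k := by
    apply Summable.of_norm_bounded hc
    intro k
    rw [norm_mul]
    have := norm_mult_le_one ht0 k
    have := norm_nonneg (c k)
    nlinarith
  have hs2 : Summable fun k => ((‖c k‖ * Real.exp (-(T / ((k : ℝ) + 1))) : ℝ) : ℂ) * z k := by
    apply Summable.of_norm_bounded (summable_S hc hT0)
    intro k
    rw [norm_mul, hz1, mul_one, Complex.norm_real, Real.norm_of_nonneg (by positivity)]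
  have e : ∑' k, c k * mult t k = ∑' k, (c k * mult t k -
      ((‖c k‖ * Real.exp (-(T / ((k : ℝ) + 1))) : ℝ) : ℂ) * z k) := by
    rw [hs1.tsum_sub hs2, hz2, sub_zero]
  rw [e, ← tsum_mul_right]
  exact tsum_of_norm_bounded (hc.mul_right _).hasSum hterm

/-- The function `S` bounds the orbit. -/
lemma norm_orbit_le {c : ℕ → ℂ} (hc : Summable fun k => ‖c k‖) {T : ℝ} (hT : 0 ≤ T) :
    ‖∑' k, c k * mult T k‖ ≤ S c T := by
  refine tsum_of_norm_bounded (summable_S hc hT).hasSum fun k => ?_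
  rw [norm_mul, norm_mult]

lemma continuousOn_S {c : ℕ → ℂ} (hc : Summable fun k => ‖c k‖) :
    ContinuousOn (S c) (Set.Ici 0) := by
  unfold S
  refine continuousOn_tsum (u := fun k => ‖c k‖) (fun k => ?_) hc fun k T hT => ?_
  · exact Continuous.continuousOn (by fun_prop)
  · rw [Real.norm_of_nonneg (by positivity)]
    have := exp_le_one' (Set.mem_Ici.1 hT) k
    have := norm_nonneg (c k)
    nlinarith

/-- Every function `∑ c_k exp((-1/(k+1) + 2π i R_k) t)` with absolutely summable coefficients is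
smaller than `1/(1+√t)` at some time `t ≥ 0`. -/
theorem exists_small (c : ℕ → ℂ) (hc : Summable fun k => ‖c k‖) :
    ∃ t : ℝ, 0 ≤ t ∧ ‖∑' k, c k * mult t k‖ < 1 / (1 + Real.sqrt t) := by
  by_contra hcon
  push Not at hcon
  set C := ∑' k, ‖c k‖ with hC
  have hC0 : 0 ≤ C := tsum_nonneg fun k => norm_nonneg _
  -- for all large `N` the bound of `small_of_no_dominating` beats the rate
  have hlim : Tendsto (fun N : ℕ => C * (8 * (1 / 2) ^ N) * ((N : ℝ) + 3)) atTop (𝓝 0) := by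
    have h1 : Tendsto (fun N : ℕ => (N : ℝ) * (1 / 2 : ℝ) ^ N) atTop (𝓝 0) :=
      tendsto_self_mul_const_pow_of_lt_one (by norm_num) (by norm_num)
    have h2 : Tendsto (fun N : ℕ => (1 / 2 : ℝ) ^ N) atTop (𝓝 0) :=
      tendsto_pow_atTop_nhds_zero_of_lt_one (by norm_num) (by norm_num)
    have h3 : Tendsto (fun N : ℕ => 8 * C * ((N : ℝ) * (1 / 2 : ℝ) ^ N + 3 * (1 / 2 : ℝ) ^ N))
        atTop (𝓝 (8 * C * (0 + 3 * 0))) := (h1.add (h2.const_mul 3)).const_mul (8 * C)
    simp only [mul_zero, add_zero] at h3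
    refine h3.congr fun N => ?_
    ring
  obtain ⟨N₁, hN₁⟩ := (hlim.eventually (gt_mem_nhds one_pos)).exists_forall_of_atTop
  set N₀ := max N₁ 1 with hN₀
  -- at all times `T ≥ N₀^2` some index dominates
  have hdom : ∀ T : ℝ, (N₀ : ℝ) ^ 2 ≤ T →
      ∃ n : ℕ, S c T < 2 * (‖c n‖ * Real.exp (-(T / ((n : ℝ) + 1)))) := by
    intro T hT
    by_contra hno
    push Not at hno
    have hT0 : 0 ≤ T := le_trans (by positivity) hT
    set N := ⌊Real.sqrt T⌋₊ with hN
    have hN1 : N₀ ≤ N := Nat.le_floor (Real.le_sqrt_of_sq_le hT)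
    have hN2 : (N : ℝ) ≤ Real.sqrt T := Nat.floor_le (Real.sqrt_nonneg T)
    have hN3 : Real.sqrt T < N + 1 := Nat.lt_floor_add_one _
    have hN4 : (N : ℝ) ^ 2 ≤ T := by
      calc (N : ℝ) ^ 2 ≤ (Real.sqrt T) ^ 2 := pow_le_pow_left₀ (by positivity) hN2 2
        _ = T := Real.sq_sqrt hT0
    have hN5 : T ≤ ((N : ℝ) + 1) ^ 2 := by
      calc T = (Real.sqrt T) ^ 2 := (Real.sq_sqrt hT0).symm
        _ ≤ ((N : ℝ) + 1) ^ 2 := pow_le_pow_left₀ (Real.sqrt_nonneg T) hN3.le 2
    have hNge1 : 1 ≤ N := le_trans (le_max_right _ _) hN1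
    obtain ⟨t, ht1, ht2, ht3⟩ := small_of_no_dominating hc N hNge1 hN4 hno
    have h1 := hcon t (hT0.trans ht1)
    have hsq : Real.sqrt t ≤ (N : ℝ) + 2 := by
      apply Real.sqrt_le_iff.2
      refine ⟨by positivity, ?_⟩
      have : (1 : ℝ) ≤ N := by exact_mod_cast hNge1
      nlinarith
    have h2 : 1 / ((N : ℝ) + 3) ≤ 1 / (1 + Real.sqrt t) := by
      apply one_div_le_one_div_of_le
      · have := Real.sqrt_nonneg t; linarith
      · linarith
    have h3 := hN₁ N ((le_max_left _ _).trans hN1)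
    have h4 : 1 / ((N : ℝ) + 3) ≤ C * (8 * (1 / 2) ^ N) := h2.trans (h1.trans ht3)
    rw [div_le_iff₀ (by positivity)] at h4
    linarith
  -- the dominating index at time `N₀^2`
  set T₀ : ℝ := (N₀ : ℝ) ^ 2 with hT₀
  have hT₀0 : 0 ≤ T₀ := by positivity
  obtain ⟨n, hn⟩ := hdom T₀ le_rfl
  -- it stops dominating
  have hstop : ∃ T₁ : ℝ, T₀ ≤ T₁ ∧ 2 * (‖c n‖ * Real.exp (-(T₁ / ((n : ℝ) + 1)))) ≤ S c T₁ := by
    by_contra hno
    push Not at hno
    have hlim2 : Tendsto (fun M : ℝ => (1 + Real.sqrt (M ^ 2)) *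
        (2 * (‖c n‖ * Real.exp (-(M ^ 2 / ((n : ℝ) + 1)))))) atTop (𝓝 0) := by
      have hb : (0 : ℝ) < 1 / ((n : ℝ) + 1) := by positivity
      have e1 : Tendsto (fun M : ℝ => Real.exp (-(1 / ((n : ℝ) + 1)) * M)) atTop (𝓝 0) := by
        have := Real.tendsto_exp_atBot.comp (Filter.Tendsto.const_mul_atTop_of_neg
          (show -(1 / ((n : ℝ) + 1)) < 0 by linarith) tendsto_id)
        exact this
      have e2 : Tendsto (fun M : ℝ => M * Real.exp (-(1 / ((n : ℝ) + 1)) * M)) atTop (𝓝 0) := by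
        have := Real.tendsto_pow_mul_exp_neg_atTop_nhds_zero 1
        have h5 : Tendsto (fun M : ℝ => ((n : ℝ) + 1) * (((1 / ((n : ℝ) + 1)) * M) ^ 1 *
            Real.exp (-((1 / ((n : ℝ) + 1)) * M)))) atTop (𝓝 (((n : ℝ) + 1) * 0)) :=
          (this.comp (Filter.Tendsto.const_mul_atTop hb tendsto_id)).const_mul _
        rw [mul_zero] at h5
        refine h5.congr fun M => ?_
        rw [pow_one, neg_mul]
        field_simp
      have h6 : Tendsto (fun M : ℝ => 2 * ‖c n‖ * (Real.exp (-(1 / ((n : ℝ) + 1)) * M) +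
          M * Real.exp (-(1 / ((n : ℝ) + 1)) * M))) atTop (𝓝 0) := by
        have := (e1.add e2).const_mul (2 * ‖c n‖)
        simpa using this
      refine squeeze_zero' ?_ ?_ h6
      · exact Eventually.of_forall fun M => by positivity
      · filter_upwards [eventually_ge_atTop (1 : ℝ)] with M hM
        rw [Real.sqrt_sq (by linarith)]
        have h7 : Real.exp (-(M ^ 2 / ((n : ℝ) + 1))) ≤ Real.exp (-(1 / ((n : ℝ) + 1)) * M) := by
          rw [Real.exp_le_exp]
          have : M / ((n : ℝ) + 1) ≤ M ^ 2 / ((n : ℝ) + 1) := by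
            apply div_le_div_of_nonneg_right _ (by positivity)
            nlinarith
          have h8 : -(1 / ((n : ℝ) + 1)) * M = -(M / ((n : ℝ) + 1)) := by ring
          rw [h8]
          linarith
        have h9 : 0 ≤ 2 * ‖c n‖ * (1 + M) := by positivity
        calc (1 + M) * (2 * (‖c n‖ * Real.exp (-(M ^ 2 / ((n : ℝ) + 1)))))
            = (2 * ‖c n‖ * (1 + M)) * Real.exp (-(M ^ 2 / ((n : ℝ) + 1))) := by ring
          _ ≤ (2 * ‖c n‖ * (1 + M)) * Real.exp (-(1 / ((n : ℝ) + 1)) * M) :=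
              mul_le_mul_of_nonneg_left h7 h9
          _ = _ := by ring
    obtain ⟨M, hM1, hM2⟩ := ((hlim2.eventually (gt_mem_nhds one_pos)).and
      (eventually_ge_atTop (max (N₀ : ℝ) 1))).exists
    have hM3 : T₀ ≤ M ^ 2 := by
      rw [hT₀]
      exact pow_le_pow_left₀ (by positivity) ((le_max_left _ _).trans hM2) 2
    have h10 := hno (M ^ 2) hM3
    have h11 := hcon (M ^ 2) (by positivity)
    have h12 := norm_orbit_le hc (T := M ^ 2) (by positivity)
    have hs : (0 : ℝ) < 1 + Real.sqrt (M ^ 2) := by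
      have := Real.sqrt_nonneg (M ^ 2); linarith
    rw [div_le_iff₀ hs] at h11
    have h13 : ‖∑' k, c k * mult (M ^ 2) k‖ * (1 + Real.sqrt (M ^ 2)) ≤
        (2 * (‖c n‖ * Real.exp (-(M ^ 2 / ((n : ℝ) + 1))))) * (1 + Real.sqrt (M ^ 2)) :=
      mul_le_mul_of_nonneg_right (by linarith) hs.le
    linarith
  obtain ⟨T₁, hT₁, hT₁'⟩ := hstop
  -- intermediate value theorem
  have hcont : ContinuousOn (fun T : ℝ => 2 * (‖c n‖ * Real.exp (-(T / ((n : ℝ) + 1)))) - S c T)
      (Set.Icc T₀ T₁) := by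
    refine ContinuousOn.sub (Continuous.continuousOn (by fun_prop)) ?_
    exact (continuousOn_S hc).mono fun T hT => le_trans hT₀0 hT.1
  have hivt := intermediate_value_Icc' hT₁ hcont
  obtain ⟨Ts, hTs1, hTs2⟩ := hivt ⟨show 2 * (‖c n‖ * Real.exp (-(T₁ / ((n : ℝ) + 1)))) - S c T₁ ≤ 0
    by linarith, show 0 ≤ 2 * (‖c n‖ * Real.exp (-(T₀ / ((n : ℝ) + 1)))) - S c T₀ by linarith⟩
  simp only at hTs2
  obtain ⟨n', hn'⟩ := hdom Ts hTs1.1
  have hne : n ≠ n' := by
    rintro rfl
    linarith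
  have hTs0 : 0 ≤ Ts := hT₀0.trans hTs1.1
  have hle : ∑ k ∈ ({n, n'} : Finset ℕ), ‖c k‖ * Real.exp (-(Ts / ((k : ℝ) + 1))) ≤ S c Ts :=
    (summable_S hc hTs0).sum_le_tsum _ fun k _ => by positivity
  rw [Finset.sum_pair hne] at hle
  linarith

end Pool.Agent.Helper60.SlowOrbit
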